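import Pool.Agent.Q17.AM.Stm3
import Pool.Agent.Q176.DC.DZV

/-!
# Project AM of helper17, job DZB: blocks with a character of defect zero
-/

set_option autoImplicit false

open scoped BigOperators Classical
open Pool.Agent.H254R3.IN Pool.Agent.Y63.KR

noncomputable section

namespace Pool.Agent.Q14.AM

open Pool.Agent.Q17.AM
open Pool.Agent.Q17.DC
open Pool.Agent.Q176.DC.DZV

/-- `p` is not invertible in `O` -/
lemma p_inv_not {p : ℕ} [hp : Fact p.Prime] {O : ValuationSubring ℂ} (hpO : (p : ℂ) ∈ O.nonunits) :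
    (p : ℂ)⁻¹ ∉ O := by
  intro h
  have h0 : (p : ℂ) ≠ 0 := by exact_mod_cast hp.out.ne_zero
  exact red_ne_zero_of_mul (natCast_mem' p) h (mul_inv_cancel₀ h0) (red_eq_zero hpO)

lemma fac_le {p : ℕ} [hp : Fact p.Prime] {O : ValuationSubring ℂ} (hpO : (p : ℂ) ∈ O.nonunits)
    {a b : ℕ} (ha : a ≠ 0) (hb : b ≠ 0) (h : (a : ℂ) / b ∈ O) :
    b.factorization p ≤ a.factorization p := by
  by_contra hlt
  rw [not_le] at hlt
  have ea : a = p ^ a.factorization p * (a / p ^ a.factorization p) :=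
    (Nat.ordProj_mul_ordCompl_eq_self a p).symm
  have eb : b = p ^ b.factorization p * (b / p ^ b.factorization p) :=
    (Nat.ordProj_mul_ordCompl_eq_self b p).symm
  have ha2 : ¬ p ∣ a / p ^ a.factorization p := Nat.not_dvd_ordCompl hp.out ha
  have hb2 : ¬ p ∣ b / p ^ b.factorization p := Nat.not_dvd_ordCompl hp.out hb
  set a' := a / p ^ a.factorization p with ha'
  set b' := b / p ^ b.factorization p with hb'
  obtain ⟨k, hk⟩ : ∃ k, b.factorization p = a.factorization p + k + 1 := ⟨b.factorization p - a.factorization p - 1, by omega⟩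
  have hp0 : (p : ℂ) ≠ 0 := by exact_mod_cast hp.out.ne_zero
  have ha'0 : (a' : ℂ) ≠ 0 := by
    have : a' ≠ 0 := fun h0 => ha2 (by rw [h0]; exact dvd_zero p)
    exact_mod_cast this
  have hb'0 : (b' : ℂ) ≠ 0 := by
    have : b' ≠ 0 := fun h0 => hb2 (by rw [h0]; exact dvd_zero p)
    exact_mod_cast this
  have e1 : (a : ℂ) = (p : ℂ) ^ a.factorization p * a' := by exact_mod_cast ea
  have e2 : (b : ℂ) = (p : ℂ) ^ (a.factorization p + k + 1) * b' := by
    rw [← hk]
    exact_mod_cast eb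
  have e3 : (p : ℂ)⁻¹ = (a : ℂ) / b * ((p : ℂ) ^ k * (b' * (a' : ℂ)⁻¹)) := by
    rw [e1, e2, pow_add, pow_add, pow_one]
    field_simp
  apply p_inv_not hpO
  rw [e3]
  exact O.mul_mem _ _ h (O.mul_mem _ _ (pow_mem (natCast_mem' p) k)
    (O.mul_mem _ _ (natCast_mem' b') (nat_inv_mem hpO ha2)))

/-- `|G| / χ(1)` is in `O` -/
lemma card_div_mem {G : Type} [Group G] [Fintype G] (O : ValuationSubring ℂ) {χ : G → ℂ}
    (hχ : IsIrr χ) : (Nat.card G : ℂ) / χ 1 ∈ O := by
  have hcl : IsCl (fun g : G => χ g⁻¹) := by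
    intro g y
    show χ (y * g * y⁻¹)⁻¹ = χ g⁻¹
    have : (y * g * y⁻¹)⁻¹ = y * g⁻¹ * y⁻¹ := by group
    rw [this, hχ.conj]
  have h := (red_Om (O := O) hχ hcl (fun g => hχ.val_mem O _)).1
  have e : Om (fun g : G => χ g⁻¹) χ = (Nat.card G : ℂ) / χ 1 := by
    unfold Om
    congr 1
    have h2 := orth_sum hχ hχ
    rw [if_pos rfl] at h2
    rw [← h2]
    exact Finset.sum_congr rfl fun g _ => mul_comm _ _
  rw [← e]
  exact h

/-- irreducible characters and surjective homomorphisms -/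
lemma irr_comp {A G : Type} [Group A] [Fintype A] [Group G] [Fintype G] (f : A →* G) (hf : Function.Surjective f)
    {θ : G → ℂ} (hθ : IsIrr θ) : IsIrr (fun a => θ (f a)) := by
  obtain ⟨V, _, _, _, ρ, hr, rfl⟩ := hθ
  refine ⟨V, _, _, inferInstance, ρ.comp f, ?_, rfl⟩
  exact (Pool.Agent.Helper884.PK.irr_pull f hf ρ (ρ.comp f) (fun _ => rfl)).2 hr

lemma omega_eq_sum {G : Type} [Group G] [Fintype G] {θ : G → ℂ} (hθ : IsIrr θ) (x : G) :
    omega θ x = ∑ᶠ y : {y : G // IsConj x y}, θ y / θ 1 := by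
  rw [finsum_eq_sum_of_fintype]
  have h : ∀ y ∈ (Finset.univ : Finset {y : G // IsConj x y}), θ y / θ 1 = θ x / θ 1 := by
    intro y _
    rw [hθ.isConj y.2]
  rw [Finset.sum_congr rfl h, Finset.sum_const, nsmul_eq_mul, Finset.card_univ]
  unfold omega
  rw [Nat.card_eq_fintype_card]
  ring

/-- the elements of the trivial normaliser -/
lemma mem_norm_bot {G : Type} [Group G] (g : G) :
    g ∈ Subgroup.normalizer (((⊥ : Subgroup G)) : Set G) := by
  rw [Subgroup.mem_normalizer_iff]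
  intro h
  rw [Subgroup.mem_bot, Subgroup.mem_bot]
  constructor
  · rintro rfl
    group
  · intro h1
    have : h = g⁻¹ * (g * h * g⁻¹) * g := by group
    rw [this, h1]
    group

lemma sum_norm_bot {G : Type} [Group G] [Fintype G]
    (φ : Subgroup.normalizer (((⊥ : Subgroup G)) : Set G) → ℂ) (ψ : G → ℂ)
    (h : ∀ y : Subgroup.normalizer (((⊥ : Subgroup G)) : Set G), φ y = ψ y) (x : G) :
    ∑ᶠ y : {y : Subgroup.normalizer (((⊥ : Subgroup G)) : Set G) // IsConj x (y : G)}, φ y / φ 1 =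
      ∑ᶠ y : {y : G // IsConj x y}, ψ y / ψ 1 := by
  let e : {y : Subgroup.normalizer (((⊥ : Subgroup G)) : Set G) // IsConj x (y : G)} ≃
      {y : G // IsConj x y} :=
    { toFun := fun y => ⟨(y.1 : G), y.2⟩
      invFun := fun y => ⟨⟨y.1, mem_norm_bot y.1⟩, y.2⟩
      left_inv := fun y => rfl
      right_inv := fun y => rfl }
  rw [← finsum_comp_equiv e]
  apply finsum_congr
  intro y
  rw [h y.1, h 1]
  rfl

/-- the normaliser -/
abbrev NQ {G : Type} [Group G] (Q : Subgroup G) : Subgroup G := Subgroup.normalizer (Q : Set G)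

section main

variable {G : Type} [Group G] [Fintype G] {p : ℕ} [hp : Fact p.Prime] {O : ValuationSubring ℂ}
  (hpO : (p : ℂ) ∈ O.nonunits) {θ : G → ℂ} (hθ : IsIrr θ) (hdz : θ 1 / Nat.card G ∈ O)

include hθ hdz

lemma coeff_eq (x : G) : blockCoeff ({θ} : Set (G → ℂ)) x =
    (θ 1 / Nat.card G) ^ 2 * omega θ x⁻¹ * Nat.card (Subgroup.centralizer ({x⁻¹} : Set G)) := by
  unfold blockCoeff
  rw [finsum_mem_singleton]
  have h := hθ.val_eq x⁻¹
  conv_lhs => rw [h]
  ring

include hpO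

lemma coeff_nonunit {x : G} (Q : Subgroup G) (hQ : IsPGroup p Q) (hQ1 : Q ≠ ⊥)
    (hx : ∀ q ∈ Q, Commute q x) : blockCoeff ({θ} : Set (G → ℂ)) x ∈ O.nonunits := by
  have hle : Q ≤ Subgroup.centralizer ({x⁻¹} : Set G) := by
    intro q hq
    rw [Subgroup.mem_centralizer_iff]
    intro y hy
    rw [Set.mem_singleton_iff.mp hy]
    exact ((hx q hq).inv_right).eq.symm
  have hd : p ∣ Nat.card (Subgroup.centralizer ({x⁻¹} : Set G)) := by
    obtain ⟨k, hk⟩ := IsPGroup.iff_card.mp hQ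
    have hk0 : k ≠ 0 := by
      rintro rfl
      rw [pow_zero] at hk
      exact hQ1 (Subgroup.card_eq_one.mp hk)
    exact ((dvd_pow_self p hk0).trans (hk ▸ dvd_rfl)).trans (Subgroup.card_dvd_of_le hle)
  rw [coeff_eq hθ hdz]
  have h1 : (θ 1 / Nat.card G) ^ 2 * omega θ x⁻¹ ∈ O :=
    O.mul_mem _ _ (pow_mem hdz 2) (hθ.omega_mem O _)
  have h2 := natCast_mem' (O := O) (Nat.card (Subgroup.centralizer ({x⁻¹} : Set G)))
  rw [← red_eq_zero_iff (O.mul_mem _ _ h1 h2), red_mul h1 h2]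
  haveI := charP_RF hpO
  rw [(red_nat_eq_zero_iff (p := p) hpO _).mpr hd, mul_zero]

/-- only the trivial subgroup is the subgroup of a weight -/
lemma wt_bot {Q : Subgroup G} {φ : Subgroup.normalizer (Q : Set G) → ℂ}
    (hw : IsWt p O ({θ} : Set (G → ℂ)) Q φ) : Q = ⊥ := by
  by_contra hQ1
  have hblk := single_block hθ hdz
  have hcl := blockCoeff_cl hblk.irr
  have hbO := blockCoeff_mem hblk
  have hcN : IsCl (fun y : NQ Q => blockCoeff ({θ} : Set (G → ℂ)) (y : G)) := fun g y => hcl (g : G) (y : G)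
  have hcNO : ∀ y : NQ Q, blockCoeff ({θ} : Set (G → ℂ)) (y : G) ∈ O := fun y => hbO _
  -- `Om c θ = 1`
  have h1 := Om_blockCoeff hblk.irr hθ
  rw [if_pos (Set.mem_singleton θ)] at h1
  have h2 := (red_Om hθ hcl hbO).2
  rw [h1, red_one] at h2
  have h3 := (red_Om (O := O) hw.irr hcN hcNO).2
  -- compare
  have h4 : red O (Om (fun y : NQ Q => blockCoeff ({θ} : Set (G → ℂ)) (y : G)) φ) = 1 := by
    rw [h2]
    have e1 : Om (fun y : NQ Q => blockCoeff ({θ} : Set (G → ℂ)) (y : G)) φ =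
        ∑ K : ConjClasses G, blockCoeff ({θ} : Set (G → ℂ)) (rep K) *
          ∑ᶠ y : {y : NQ Q // IsConj (rep K) (y : G)}, φ y / φ 1 := by
      unfold Om
      rw [Finset.sum_div]
      rw [← Finset.sum_fiberwise Finset.univ (fun y : NQ Q => ConjClasses.mk (y : G))]
      refine Finset.sum_congr rfl fun K _ => ?_
      rw [finsum_eq_sum_of_fintype, Finset.mul_sum]
      rw [Finset.sum_subtype (Finset.univ.filter (fun y : NQ Q => ConjClasses.mk (y : G) = K))
        (p := fun y : NQ Q => IsConj (rep K) (y : G)) (by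
          intro y
          rw [Finset.mem_filter, mk_eq_iff]
          exact ⟨fun h => h.2, fun h => ⟨Finset.mem_univ _, h⟩⟩)]
      refine Finset.sum_congr rfl fun y _ => ?_
      rw [hcl.isConj y.2]
      ring
    have hm : ∀ K : ConjClasses G,
        (∑ᶠ y : {y : NQ Q // IsConj (rep K) (y : G)}, φ y / φ 1) ∈ O ∧
        red O (omega θ (rep K)) = red O (∑ᶠ y : {y : NQ Q // IsConj (rep K) (y : G)}, φ y / φ 1) :=
      fun K => red_congr (hθ.omega_mem O _) (hw.ind θ (Set.mem_singleton θ) (rep K))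
    rw [e1, red_sum _ _ fun K _ => O.mul_mem _ _ (hbO _) (hm K).1]
    refine Finset.sum_congr rfl fun K _ => ?_
    rw [red_mul (hbO _) (hm K).1, (hm K).2]
  rw [h3] at h4
  have h5 : ∃ K : ConjClasses (NQ Q), red O (blockCoeff ({θ} : Set (G → ℂ)) ((rep K : NQ Q) : G)) *
      red O (omega φ (rep K)) ≠ 0 := by
    by_contra hcon
    push Not at hcon
    rw [Finset.sum_eq_zero fun K _ => hcon K] at h4
    exact zero_ne_one h4
  obtain ⟨K, hK⟩ := h5
  have hK1 := left_ne_zero_of_mul hK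
  have hK2 := right_ne_zero_of_mul hK
  -- the class is in the centraliser
  set D : Subgroup (NQ Q) := Q.subgroupOf (NQ Q) with hD
  haveI hDn : D.Normal := by
    rw [hD]
    infer_instance
  have hDp : IsPGroup p D := hw.isp.of_equiv (Subgroup.subgroupOfEquivOfLe Subgroup.le_normalizer).symm
  have hxc : rep K ∈ Subgroup.centralizer (D : Set (NQ Q)) := by
    by_contra hx
    exact hK2 (lam_zero hpO hDp hw.irr hx)
  apply hK1
  apply red_eq_zero
  apply coeff_nonunit hpO hθ hdz Q hw.isp hQ1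
  intro q hq
  have hqN : q ∈ NQ Q := Subgroup.le_normalizer hq
  have h6 := Subgroup.mem_centralizer_iff.mp hxc ⟨q, hqN⟩ hq
  exact congrArg (fun z : NQ Q => (z : G)) h6

/-- the character of a weight is the character of the block -/
lemma wt_char {φ : Subgroup.normalizer (((⊥ : Subgroup G)) : Set G) → ℂ}
    (hw : IsWt p O ({θ} : Set (G → ℂ)) ⊥ φ)
    (y : Subgroup.normalizer (((⊥ : Subgroup G)) : Set G)) : φ y = θ y := by
  set ψ : G → ℂ := fun g => φ ⟨g, mem_norm_bot g⟩ with hψ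
  let f : G →* Subgroup.normalizer (((⊥ : Subgroup G)) : Set G) :=
    { toFun := fun g => ⟨g, mem_norm_bot g⟩
      map_one' := rfl
      map_mul' := fun _ _ => rfl }
  have hψi : IsIrr ψ := irr_comp f (fun y => ⟨y.1, rfl⟩) hw.irr
  have hblk := single_block hθ hdz
  have hmem : ψ ∈ ({θ} : Set (G → ℂ)) := by
    obtain ⟨χ₀, hχ₀, hB⟩ := hblk
    have h0 : θ ∈ ({θ} : Set (G → ℂ)) := Set.mem_singleton θ
    rw [hB] at h0 ⊢
    refine ⟨hψi, fun x => ?_⟩
    have h1 := h0.2 x
    have h2 := hw.ind θ (Set.mem_singleton θ) x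
    rw [sum_norm_bot φ ψ (fun y => rfl) x, ← omega_eq_sum hψi] at h2
    have h3 := O.nonunits.sub_mem h1 h2
    have h4 : omega θ x - omega χ₀ x - (omega θ x - omega ψ x) = omega ψ x - omega χ₀ x := by ring
    rw [h4] at h3
    exact h3
  have h5 := Set.mem_singleton_iff.mp hmem
  exact congrFun h5 (y : G)

/-- the weight -/
lemma wt_exists : IsWt p O ({θ} : Set (G → ℂ)) ⊥ (fun y => θ y) where
  isp := IsPGroup.of_bot
  irr := irr_comp (Subgroup.normalizer (((⊥ : Subgroup G)) : Set G)).subtype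
    (fun g => ⟨⟨g, mem_norm_bot g⟩, rfl⟩) hθ
  ker := by
    intro x hx
    rw [Subgroup.mem_bot] at hx
    have : x = 1 := Subtype.ext hx
    rw [this]
  defect := by
    obtain ⟨n, hn0, hn⟩ := hθ.deg
    refine ⟨n, hn, ?_⟩
    have hc : Nat.card (Subgroup.normalizer (((⊥ : Subgroup G)) : Set G)) = Nat.card G := by
      refine Nat.card_congr ⟨fun y => y.1, fun g => ⟨g, mem_norm_bot g⟩, fun _ => rfl, fun _ => rfl⟩
    rw [hc, Subgroup.card_bot, Nat.factorization_one, Finsupp.zero_apply, zero_add]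
    apply le_antisymm
    · apply fac_le hpO hn0.ne' Nat.card_pos.ne'
      rw [hn]
      exact hdz
    · apply fac_le hpO Nat.card_pos.ne' hn0.ne'
      rw [hn]
      exact card_div_mem O hθ
  ind := by
    intro χ hχ x
    rw [Set.mem_singleton_iff.mp hχ, sum_norm_bot _ θ (fun y => rfl) x, ← omega_eq_sum hθ, sub_self]
    exact O.nonunits.zero_mem

lemma nW_one : nW p O ({θ} : Set (G → ℂ)) = 1 := by
  unfold nW
  rw [Nat.card_eq_one_iff_exists]
  refine ⟨Quotient.mk _ ⟨⟨⊥, fun y => θ y⟩, wt_exists hpO hθ hdz⟩, ?_⟩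
  intro q
  induction q using Quotient.inductionOn with
  | h w =>
    obtain ⟨⟨Q, φ⟩, hw⟩ := w
    have hQ := wt_bot hpO hθ hdz hw
    subst hQ
    apply Quotient.sound
    refine ⟨1, (conjSub_one _).symm, ?_⟩
    intro x x' hx
    have h1 := wt_char hpO hθ hdz hw x
    refine Eq.trans ?_ h1.symm
    show θ x' = θ x
    rw [hx, one_mul, inv_one, mul_one]

omit hpO hdz in
lemma lB_one : lB p ({θ} : Set (G → ℂ)) = 1 := by
  unfold lB
  have h : {f : G → ℂ | ∃ χ ∈ ({θ} : Set (G → ℂ)), ∀ x, f x = if p ∣ orderOf x then 0 else χ x} =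
      {fun x => if p ∣ orderOf x then 0 else θ x} := by
    ext f
    rw [Set.mem_singleton_iff]
    constructor
    · rintro ⟨χ, hχ, hf⟩
      rw [Set.mem_singleton_iff.mp hχ] at hf
      exact funext hf
    · rintro rfl
      exact ⟨θ, Set.mem_singleton θ, fun x => rfl⟩
  rw [h]
  apply finrank_span_singleton
  intro h0
  have h1 := congrFun h0 1
  rw [orderOf_one, if_neg (fun hd => hp.out.one_lt.ne' (Nat.dvd_one.mp hd))] at h1
  exact hθ.one_ne h1

end main

theorem t_DZB (_ : S_SECT) (_ : S_MMX) : S_DZB := by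
  intro G _ _ p _ O hpO B hB hPos
  unfold Pos at hPos
  push Not at hPos
  obtain ⟨θ, hθB, hθn⟩ := hPos
  have hθ := hB.irr θ hθB
  have hdz : θ 1 / Nat.card G ∈ O := by
    have h1 := card_div_mem O hθ
    have h2 : red O ((Nat.card G : ℂ) / θ 1) ≠ 0 := fun h => hθn ((red_eq_zero_iff h1).mp h)
    have h3 := (inv_mem_of_red_ne h2).2.1
    rwa [inv_div] at h3
  have hblk := single_block hθ hdz
  have hBe : B = {θ} := by
    obtain ⟨χ₀, hχ₀, rfl⟩ := hB
    obtain ⟨χ₁, hχ₁, h1⟩ := hblk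
    rw [h1]
    have h2 : θ ∈ ({θ} : Set (G → ℂ)) := Set.mem_singleton θ
    rw [h1] at h2
    ext ψ
    constructor
    · rintro ⟨hψ, h3⟩
      refine ⟨hψ, fun x => ?_⟩
      have h4 := O.nonunits.add_mem (O.nonunits.sub_mem (h3 x) (hθB.2 x)) (h2.2 x)
      have h5 : omega ψ x - omega χ₀ x - (omega θ x - omega χ₀ x) + (omega θ x - omega χ₁ x) =
        omega ψ x - omega χ₁ x := by ring
      rw [h5] at h4
      exact h4
    · rintro ⟨hψ, h3⟩
      refine ⟨hψ, fun x => ?_⟩
      have h4 := O.nonunits.add_mem (O.nonunits.sub_mem (h3 x) (h2.2 x)) (hθB.2 x)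
      have h5 : omega ψ x - omega χ₁ x - (omega θ x - omega χ₁ x) + (omega θ x - omega χ₀ x) =
        omega ψ x - omega χ₀ x := by ring
      rw [h5] at h4
      exact h4
  rw [hBe]
  exact ⟨lB_one hθ, nW_one hpO hθ hdz⟩

end Pool.Agent.Q14.AM
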